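import Pool.Agent.Helper66_KF.Stmts

/-!
# Squad KF, row LIN: the lift of an idempotent vanishes at the involutions
-/

open scoped BigOperators

noncomputable section

namespace Pool.Agent.PP.H60

open Pool.Agent.Helper51_AWC Pool.Agent.Helper79_WRA Pool.Agent.PP Pool.Agent.PP.KF

attribute [local instance] Ideal.Quotient.field

section

variable {R : Type} [CommRing R] {G : Type} [Group G] [Fintype G] [DecidableEq G]

omit [Fintype G] [DecidableEq G] in
/-- left multiplication by an element of the group ring -/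
def Pm (a : G → R) : Matrix G G R := fun y x => a (y * x⁻¹)

omit [Fintype G] in
/-- left multiplication by `z⁻¹` -/
def Um (R : Type) [CommRing R] (z : G) : Matrix G G R := fun y x => if x = z * y then 1 else 0

theorem Um_mulVec (z : G) (v : G → R) (y : G) : (Um R z).mulVec v y = v (z * y) := by
  unfold Um Matrix.mulVec dotProduct
  simp

theorem Um_mul (z : G) (A : Matrix G G R) (y x : G) : (Um R z * A) y x = A (z * y) x := by
  unfold Um
  rw [Matrix.mul_apply]
  simp

theorem mul_Um (z : G) (A : Matrix G G R) (y x : G) : (A * Um R z) y x = A y (z⁻¹ * x) := by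
  unfold Um
  rw [Matrix.mul_apply, Finset.sum_eq_single (z⁻¹ * x)]
  · simp
  · intro b _ hb
    rw [if_neg, mul_zero]
    rintro rfl
    exact hb (by group)
  · intro h
    exact absurd (Finset.mem_univ _) h

omit [DecidableEq G] in
theorem Pm_mul (a b : G → R) : Pm a * Pm b = Pm (fun x => ∑ t, a t * b (t⁻¹ * x)) := by
  ext y x
  rw [Matrix.mul_apply]
  unfold Pm
  refine Fintype.sum_equiv ((Equiv.inv G).trans (Equiv.mulLeft y)) _ _ fun w => ?_
  simp only [Equiv.trans_apply, Equiv.inv_apply, Equiv.coe_mulLeft]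
  congr 2
  group

/-- decomposition along a fixed point free involution -/
theorem split_inv {z : G} (hz : z * z = 1) (hz1 : z ≠ 1) (v : G → R) (hv : ∀ y, v (z * y) = v y) :
    ∃ v0 : G → R, v = v0 + (Um R z).mulVec v0 := by
  have hne : ∀ y, z * y ≠ y := by
    intro y h
    exact hz1 (mul_eq_right.1 h)
  let i := Fintype.equivFin G
  refine ⟨fun y => if i y < i (z * y) then v y else 0, ?_⟩
  funext y
  rw [Pi.add_apply, Um_mulVec, ← mul_assoc, hz, one_mul]
  rcases lt_trichotomy (i y) (i (z * y)) with h | h | h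
  · rw [if_pos h, if_neg (not_lt.2 h.le), add_zero]
  · exact absurd (i.injective h).symm (hne y)
  · rw [if_neg (not_lt.2 h.le), if_pos h, zero_add, hv]

end

/-- Row LIN. -/
theorem lin (trm : KF.TrmStmt) (idm : KF.IdmStmt) : KF.LinStmt := by
  classical
  intro M _ h2 G _ _ e he z hz
  have := Fintype.ofFinite G
  obtain ⟨h1, hI, -⟩ := idm M G e he
  have hcl : ∀ x y, eh M e (y * x * y⁻¹) = eh M e x := hI.1
  have hcle : ∀ x y, e (y * x * y⁻¹) = e x := he.1
  have hmul : (fun x => ∑ t, eh M e t * eh M e (t⁻¹ * x)) = eh M e := by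
    have h := hI.2
    funext x
    have h' := congrFun h x
    rw [mulF, finsum_eq_sum_of_fintype] at h'
    exact h'
  have hmule : (fun x => ∑ t, e t * e (t⁻¹ * x)) = e := by
    funext x
    have h' := congrFun he.2 x
    rw [mulF, finsum_eq_sum_of_fintype] at h'
    exact h'
  have hPr : (Pm (eh M e)).map (rr M) = Pm e := by
    ext y x
    exact (h1 _).2
  have hUr : (Um ℂ z).map (rr M) = Um (FF M) z := by
    ext y x
    rw [Matrix.map_apply]
    unfold Um
    split_ifs
    · exact rr_one
    · exact rr_zero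
  have hswap : ∀ {R : Type} [CommRing R] (a : G → R), (∀ x y, a (y * x * y⁻¹) = a x) →
      Um R z * Pm a = Pm a * Um R z := by
    intro R _ a ha
    ext y x
    rw [Um_mul, mul_Um]
    unfold Pm
    have h3 : z * y * x⁻¹ = z * (y * (z⁻¹ * x)⁻¹) * z⁻¹ := by group
    rw [h3, ha]
  have htr := trm M h2 G (Pm (eh M e)) (Um ℂ z) (fun i j => (h1 _).1) (fun i j => ?_) ?_ ?_
    (hswap _ hcl) ?_
  · have h3 : (Um ℂ z * Pm (eh M e)).trace = Fintype.card G * eh M e z := by
      rw [Matrix.trace]
      have h4 : ∀ y, (Um ℂ z * Pm (eh M e)).diag y = eh M e z := by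
        intro y
        rw [Matrix.diag_apply, Um_mul]
        unfold Pm
        rw [mul_inv_cancel_right]
      rw [Finset.sum_congr rfl fun y _ => h4 y, Finset.sum_const, nsmul_eq_mul, Finset.card_univ]
    rw [h3] at htr
    exact (mul_eq_zero.1 htr).resolve_left (by exact_mod_cast Fintype.card_ne_zero)
  · unfold Um
    split_ifs
    · exact (RM M).one_mem
    · exact (RM M).zero_mem
  · rw [Pm_mul, hmul]
  · ext y x
    rw [Um_mul]
    unfold Um
    rw [Matrix.one_apply, ← mul_assoc, hz.sq, one_mul]
    simp only [eq_comm]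
  · intro v hv hv'
    rw [hPr] at hv
    rw [hUr] at hv'
    rw [hPr, hUr]
    obtain ⟨v0, h0⟩ := split_inv hz.sq hz.ne v (fun y => by
      have h := congrFun hv' y
      rwa [Um_mulVec] at h)
    refine ⟨(Pm e).mulVec v0, ?_, ?_⟩
    · rw [Matrix.mulVec_mulVec, Pm_mul, hmule]
    · rw [Matrix.mulVec_mulVec, hswap e hcle, ← Matrix.mulVec_mulVec, ← Matrix.mulVec_add, ← h0,
        hv]

end Pool.Agent.PP.H60
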