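import Pool.Agent.Helper66_KF.Stmts

/-!
# Squad KF, row HGT: the degrees of the characters of a block whose defect is at most two
-/

open scoped BigOperators

noncomputable section

namespace Pool.Agent.PP.H60

open Pool.Agent.Helper51_AWC Pool.Agent.Helper79_WRA Pool.Agent.PP Pool.Agent.PP.KF

attribute [local instance] Ideal.Quotient.field

/-- `4 / n` is in the local ring if `8` does not divide `n` -/
theorem four_div {M : Ideal (integralClosure ℤ ℂ)} [M.IsMaximal]
    (h2 : (2 : integralClosure ℤ ℂ) ∈ M) {n : ℕ} (hn : n ≠ 0) (h8 : ¬ 8 ∣ n) :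
    (4 / n : ℂ) ∈ RM M := by
  obtain ⟨a, m, hm, rfl⟩ := Nat.exists_eq_pow_mul_and_not_dvd hn 2 (by norm_num)
  have ha : a < 3 := by
    by_contra h
    apply h8
    have h1 : 2 ^ 3 ∣ 2 ^ a := Nat.pow_dvd_pow 2 (by omega)
    exact h1.trans (Dvd.intro _ rfl)
  have hm0 : m ≠ 0 := by
    rintro rfl
    exact hn (by simp)
  have hmc : (m : ℂ) ≠ 0 := by exact_mod_cast hm0
  have hinv : ((m : ℂ))⁻¹ ∈ RM M :=
    inv_nat_RM (ℓ := 2) Nat.prime_two (by exact_mod_cast h2) hm
  have h3 : (4 / ((2 ^ a * m : ℕ) : ℂ)) = ((2 ^ (2 - a) : ℕ) : ℂ) * (m : ℂ)⁻¹ := by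
    push_cast
    interval_cases a
    · field_simp
      norm_num
    · field_simp
      norm_num
    · field_simp
      norm_num
  rw [h3]
  exact (RM M).mul_mem (rr_nat _).1 hinv

/-- the central character at a class -/
theorem hcent {G : Type} [Group G] [Finite G] {χ : G → ℂ} (hχ : χ ∈ Irr G) (g : G) :
    (Nat.card G : ℂ) / χ 1 * χ g =
      (Nat.card (Subgroup.centralizer {g} : Subgroup G) : ℂ) * omega (MonoidHom.id G) χ g := by
  classical
  have := Fintype.ofFinite G
  have h1 : omega (MonoidHom.id G) χ g =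
      ((Finset.univ.filter fun h => IsConj g h).card : ℂ) * χ g / χ 1 := by
    rw [omega_eq]
    congr 1
    simp only [MonoidHom.id_apply]
    rw [← Finset.sum_filter]
    have : ∀ h ∈ Finset.univ.filter (fun h => IsConj g h), χ h = χ g := by
      intro h hh
      exact (irr_isConj hχ (Finset.mem_filter.1 hh).2).symm
    rw [Finset.sum_congr rfl this, Finset.sum_const, nsmul_eq_mul]
  have h2 := card_class g
  rw [h1, Nat.card_eq_fintype_card, ← h2]
  push_cast
  ring

/-- Row HGT. -/
theorem hgt : HgtStmt := by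
  intro M _ h2 G _ _ e he h8 χ hχ
  classical
  have := Fintype.ofFinite (ConjClasses G)
  obtain ⟨hirr, hres⟩ := hχ
  obtain ⟨c, hc⟩ : ∃ c : ConjClasses G, e (Quotient.out c) *
      red M (omega (MonoidHom.id G) χ (Quotient.out c)) ≠ 0 := by
    by_contra hcon
    push Not at hcon
    rw [res, finsum_eq_sum_of_fintype, Finset.sum_eq_zero (fun c _ => hcon c)] at hres
    exact zero_ne_one hres
  set g := Quotient.out c
  have he0 : e g ≠ 0 := left_ne_zero_of_mul hc
  have hr0 := right_ne_zero_of_mul hc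
  have hint : IsIntegral ℤ (omega (MonoidHom.id G) χ g) := omega_integral _ hirr g
  obtain ⟨hinv, hω⟩ := inv_RM (M := M) (RM_of_int hint) (by rwa [rr_of_int hint])
  have hχ1 := irr_one_ne hirr
  have hG : (Nat.card G : ℂ) ≠ 0 := by exact_mod_cast Nat.card_pos.ne'
  have hC : (Nat.card (Subgroup.centralizer {g} : Subgroup G) : ℂ) ≠ 0 := by
    exact_mod_cast Nat.card_pos.ne'
  have h3 := hcent hirr g
  have h4 : 4 * χ 1 / Nat.card G =
      4 / (Nat.card (Subgroup.centralizer {g} : Subgroup G) : ℂ) * χ g *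
        (omega (MonoidHom.id G) χ g)⁻¹ := by
    have hg0 : χ g ≠ 0 := by
      intro h
      rw [h, mul_zero] at h3
      exact mul_ne_zero hC hω h3.symm
    field_simp at h3 ⊢
    rw [h3]
  rw [h4]
  exact (RM M).mul_mem ((RM M).mul_mem (four_div h2 Nat.card_pos.ne' (h8 g he0))
    (RM_of_int (irr_integral hirr g))) hinv

end Pool.Agent.PP.H60
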